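import Pool.Agent.Lib.P697e97.Final

set_option autoImplicit false

namespace Pool.Agent.Results.MP_697e97_al.AutRandomGraph

/-- `M` is the product `C 0 * C 1 * ... * C (n-1)` of `n` commutative submonoids. -/
def IsProductOfCommSubmonoids (M : Type*) [Monoid M] (n : ℕ) : Prop :=
  ∃ C : Fin n → Submonoid M,
    (∀ i, ∀ a ∈ C i, ∀ b ∈ C i, a * b = b * a) ∧
    ∀ m : M, ∃ c : Fin n → M, (∀ i, c i ∈ C i) ∧ (List.ofFn c).prod = m

/-- The commutative submonoid width: the least `n` such that `M` is a product of `n`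
commutative submonoids, and `⊤` if there is no such `n`. -/
noncomputable def cmw (M : Type*) [Monoid M] : ℕ∞ :=
  ⨅ (n : ℕ) (_ : IsProductOfCommSubmonoids M n), (n : ℕ∞)

/-- `G` is (a copy of) the countable random (Rado) graph: the vertex set is countable and for
all disjoint finite sets `U`, `W` of vertices some vertex outside `U ∪ W` is adjacent to every
vertex of `U` and to no vertex of `W`. -/
def IsRandomGraph {V : Type*} (G : SimpleGraph V) : Prop :=
  Countable V ∧ ∀ U W : Finset V, Disjoint U W →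
    ∃ z : V, z ∉ U ∧ z ∉ W ∧ (∀ u ∈ U, G.Adj z u) ∧ (∀ w ∈ W, ¬ G.Adj z w)

theorem isProduct_iff (M : Type*) [Monoid M] (n : ℕ) :
    IsProductOfCommSubmonoids M n ↔ P697e97.AP n (Set.univ : Set M) := by
  constructor
  · rintro ⟨C, h1, h2⟩
    exact ⟨C, h1, fun m _ => h2 m⟩
  · rintro ⟨C, h1, h2⟩
    exact ⟨C, h1, fun m => h2 m trivial⟩

theorem cmw_le {M : Type*} [Monoid M] {n : ℕ} (h : IsProductOfCommSubmonoids M n) :
    cmw M ≤ n := iInf₂_le n h

theorem exists_cmw_eq {M : Type*} [Monoid M] {m : ℕ} (h : IsProductOfCommSubmonoids M m) :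
    ∃ n : ℕ, IsProductOfCommSubmonoids M n ∧ cmw M = n := by
  classical
  have hex : ∃ n, IsProductOfCommSubmonoids M n := ⟨m, h⟩
  refine ⟨Nat.find hex, Nat.find_spec hex, le_antisymm (cmw_le (Nat.find_spec hex)) ?_⟩
  refine le_iInf₂ fun n hn => ?_
  exact_mod_cast Nat.find_min' hex hn

/-- **The automorphism group of the random graph has finite commutative submonoid width**:
`cmw (Aut R) ≤ 3 cmw (Sym(ℕ))` and `cmw (Aut R) ≤ 120` for every copy `R` of the random graph.
(The automorphism group of the graph `G` is `G ≃g G`, with composition.) -/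
theorem result {V : Type*} (G : SimpleGraph V) (hG : IsRandomGraph G) :
    cmw (G ≃g G) ≤ 3 * cmw (Equiv.Perm ℕ) ∧ cmw (G ≃g G) ≤ 120 := by
  have key : ∀ n : ℕ, IsProductOfCommSubmonoids (Equiv.Perm ℕ) n →
      cmw (G ≃g G) ≤ ((3 * n : ℕ) : ℕ∞) := by
    intro n hn
    have h1 := P697e97.rand_AP ((isProduct_iff _ n).1 hn) (G := G) hG
    have h2 : n + n + n = 3 * n := by ring
    rw [h2] at h1
    exact cmw_le ((isProduct_iff _ _).2 h1)
  have h40 : IsProductOfCommSubmonoids (Equiv.Perm ℕ) 40 :=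
    (isProduct_iff _ _).2 P697e97.perm_nat_AP
  constructor
  · obtain ⟨n, hn, h⟩ := exists_cmw_eq h40
    rw [h]
    exact_mod_cast key n hn
  · exact_mod_cast key 40 h40

end Pool.Agent.Results.MP_697e97_al.AutRandomGraph
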