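import Mathlib

set_option autoImplicit false

namespace Pool.Agent.Results.MP_697e97_al.AutRat

/-- `M` is the product `C 0 * C 1 * ... * C (n-1)` of `n` commutative submonoids. -/
def IsProductOfCommSubmonoids (M : Type*) [Monoid M] (n : ℕ) : Prop :=
  ∃ C : Fin n → Submonoid M,
    (∀ i, ∀ a ∈ C i, ∀ b ∈ C i, a * b = b * a) ∧
    ∀ m : M, ∃ c : Fin n → M, (∀ i, c i ∈ C i) ∧ (List.ofFn c).prod = m

/-- The commutative submonoid width: the least `n` such that `M` is a product of `n`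
commutative submonoids, and `⊤` if there is no such `n`. -/
noncomputable def cmw (M : Type*) [Monoid M] : ℕ∞ :=
  ⨅ (n : ℕ) (_ : IsProductOfCommSubmonoids M n), (n : ℕ∞)

/-- Pairwise commuting order preserving self-maps of `ℚ` are dominated on the naturals by one
function, which may be taken above the identity. -/
theorem dominated (S : Set (ℚ → ℚ)) (hmono : ∀ c ∈ S, Monotone c)
    (hcomm : ∀ a ∈ S, ∀ b ∈ S, ∀ x, a (b x) = b (a x)) :
    ∃ f : ℕ → ℕ, (∀ n, n ≤ f n) ∧ ∀ c ∈ S, ∃ N : ℕ, ∀ n : ℕ, N ≤ n → c n ≤ f n := by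
  classical
  obtain ⟨q, hq⟩ := exists_surjective_nat ℚ
  suffices h : ∃ f : ℕ → ℚ, ∀ c ∈ S, ∃ N : ℕ, ∀ n : ℕ, N ≤ n → c n ≤ f n by
    obtain ⟨f, hf⟩ := h
    refine ⟨fun n => n + ⌈f n⌉₊, fun n => Nat.le_add_right _ _, ?_⟩
    intro c hc
    obtain ⟨N, hN⟩ := hf c hc
    refine ⟨N, fun n hn => (hN n hn).trans ?_⟩
    push_cast
    have h1 := Nat.le_ceil (f n)
    have h2 : (0 : ℚ) ≤ n := Nat.cast_nonneg n
    linarith
  by_cases hb : ∃ x, ∀ n : ℕ, ∃ c ∈ S, (n : ℚ) ≤ c x
  · obtain ⟨x, hx⟩ := hb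
    choose c hcS hc using hx
    refine ⟨fun n => (Finset.range (n + 1)).sup' ⟨0, by simp⟩ (fun j => c n (q j)), ?_⟩
    intro b hb
    obtain ⟨j, hj⟩ := hq (b x)
    refine ⟨j, fun n hn => ?_⟩
    have h1 : b n ≤ b (c n x) := hmono b hb (hc n)
    rw [hcomm b hb (c n) (hcS n), ← hj] at h1
    refine h1.trans ?_
    exact Finset.le_sup' (f := fun j => c n (q j)) (by simp; omega)
  · push Not at hb
    choose B hB using hb
    refine ⟨fun n => B n, fun c hc => ⟨0, fun n _ => (hB n c hc).le⟩⟩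

/-- Every finite product of such families is dominated. -/
theorem dominated_prod (k : ℕ) (S : Fin k → Set (ℚ → ℚ)) (hmono : ∀ i, ∀ c ∈ S i, Monotone c)
    (hcomm : ∀ i, ∀ a ∈ S i, ∀ b ∈ S i, ∀ x, a (b x) = b (a x)) :
    ∃ f : ℕ → ℕ, (∀ n, n ≤ f n) ∧ ∀ c : Fin k → ℚ → ℚ, (∀ i, c i ∈ S i) →
      ∃ N : ℕ, ∀ n : ℕ, N ≤ n → ((List.ofFn c).foldr (fun g x => g x) (n : ℚ)) ≤ f n := by
  induction k with
  | zero =>
    refine ⟨fun n => n, fun n => le_rfl, fun c _ => ⟨0, fun n _ => ?_⟩⟩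
    simp
  | succ k ih =>
    obtain ⟨f, hf, hfc⟩ := ih (fun i => S i.succ) (fun i => hmono i.succ) (fun i => hcomm i.succ)
    obtain ⟨g, hg, hgc⟩ := dominated (S 0) (hmono 0) (hcomm 0)
    refine ⟨fun n => g (f n), fun n => (hf n).trans (hg _), ?_⟩
    intro c hc
    obtain ⟨N, hN⟩ := hfc (fun i => c i.succ) (fun i => hc i.succ)
    obtain ⟨N', hN'⟩ := hgc (c 0) (hc 0)
    refine ⟨max N N', fun n hn => ?_⟩
    have h1 := hN n ((le_max_left _ _).trans hn)
    have h2 := hN' (f n) (((le_max_right _ _).trans hn).trans (hf n))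
    rw [List.ofFn_succ, List.foldr_cons]
    exact (hmono 0 _ (hc 0) h1).trans h2

/-- An order automorphism of `ℚ` whose values at the naturals exceed a given function. -/
theorem exists_fast (F : ℕ → ℕ) : ∃ g : ℚ ≃o ℚ, ∀ n : ℕ, (F n : ℚ) < g n := by
  classical
  -- a strictly increasing sequence above `F`
  let a : ℕ → ℕ := fun n => (∑ k ∈ Finset.range (n + 1), (F k + 1))
  have ha_succ : ∀ n, a (n + 1) = a n + (F (n + 1) + 1) := fun n => Finset.sum_range_succ _ _
  have ha_lt : ∀ n, a n < a (n + 1) := fun n => by rw [ha_succ]; omega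
  have ha_mono : StrictMono a := strictMono_nat_of_lt_succ ha_lt
  have haF : ∀ n, F n < a n := by
    intro n
    cases n with
    | zero => simp [a]
    | succ n => rw [ha_succ]; omega
  have hpos : ∀ n, (0 : ℚ) < (a (n + 1) : ℚ) - a n := by
    intro n
    have : (a n : ℚ) < a (n + 1) := by exact_mod_cast ha_lt n
    linarith
  -- the piecewise linear map
  let g : ℚ → ℚ := fun x => if x < 0 then x + a 0 else
    a ⌊x⌋₊ + (x - ⌊x⌋₊) * (a (⌊x⌋₊ + 1) - a ⌊x⌋₊)
  have hg_neg : ∀ x, x < 0 → g x = x + a 0 := fun x hx => by simp [g, hx]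
  have hg_pos : ∀ x, 0 ≤ x → g x = a ⌊x⌋₊ + (x - ⌊x⌋₊) * (a (⌊x⌋₊ + 1) - a ⌊x⌋₊) :=
    fun x hx => by simp [g, not_lt.2 hx]
  have hg_lower : ∀ x, 0 ≤ x → (a ⌊x⌋₊ : ℚ) ≤ g x := by
    intro x hx
    rw [hg_pos x hx]
    have h1 : (0 : ℚ) ≤ x - ⌊x⌋₊ := by
      have := Nat.floor_le hx
      linarith
    have h2 := mul_nonneg h1 (hpos ⌊x⌋₊).le
    linarith
  have hg_upper : ∀ x, 0 ≤ x → g x < (a (⌊x⌋₊ + 1) : ℚ) := by
    intro x hx
    rw [hg_pos x hx]
    have h1 : x - ⌊x⌋₊ < 1 := by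
      have := Nat.lt_floor_add_one x
      linarith
    have h2 := mul_lt_mul_of_pos_right h1 (hpos ⌊x⌋₊)
    linarith
  have hmono : StrictMono g := by
    intro x y hxy
    rcases lt_or_ge x 0 with hx | hx
    · rw [hg_neg x hx]
      rcases lt_or_ge y 0 with hy | hy
      · rw [hg_neg y hy]
        linarith
      · have h1 := hg_lower y hy
        have h2 : (a 0 : ℚ) ≤ a ⌊y⌋₊ := by exact_mod_cast ha_mono.monotone (Nat.zero_le _)
        linarith
    · have hy : 0 ≤ y := hx.trans hxy.le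
      rcases (Nat.floor_mono hxy.le).eq_or_lt with h | h
      · rw [hg_pos x hx, hg_pos y hy, ← h]
        have := mul_lt_mul_of_pos_right (sub_lt_sub_right hxy (⌊x⌋₊ : ℚ)) (hpos ⌊x⌋₊)
        linarith
      · have h1 := hg_upper x hx
        have h2 := hg_lower y hy
        have h3 : (a (⌊x⌋₊ + 1) : ℚ) ≤ a ⌊y⌋₊ := by exact_mod_cast ha_mono.monotone h
        linarith
  have hsurj : Function.Surjective g := by
    intro y
    rcases lt_or_ge y (a 0) with hy | hy
    · exact ⟨y - a 0, by rw [hg_neg _ (by linarith)]; ring⟩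
    · -- the last `n` with `a n ≤ y`
      have hex : ∃ n, y < a n := by
        refine ⟨⌊y⌋₊ + 1, ?_⟩
        have h1 := Nat.lt_floor_add_one y
        have h2 : ((⌊y⌋₊ + 1 : ℕ) : ℚ) ≤ a (⌊y⌋₊ + 1) := by
          exact_mod_cast ha_mono.le_apply
        push_cast at h2
        linarith
      obtain ⟨n, hn, hmin⟩ : ∃ n, y < a n ∧ ∀ m < n, ¬ y < a m :=
        ⟨Nat.find hex, Nat.find_spec hex, fun m hm => Nat.find_min hex hm⟩
      cases n with
      | zero => exact absurd hn (not_lt.2 hy)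
      | succ n =>
        have hlow : (a n : ℚ) ≤ y := not_lt.1 (hmin n (Nat.lt_succ_self n))
        have hp := hpos n
        let t : ℚ := (y - a n) / (a (n + 1) - a n)
        have ht0 : 0 ≤ t := div_nonneg (by linarith) hp.le
        have ht1 : t < 1 := by
          rw [div_lt_one hp]
          linarith
        refine ⟨n + t, ?_⟩
        have hx0 : (0 : ℚ) ≤ n + t := add_nonneg (Nat.cast_nonneg n) ht0
        have hfl : ⌊(n : ℚ) + t⌋₊ = n := by
          rw [Nat.floor_eq_iff hx0]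
          constructor <;> linarith
        rw [hg_pos _ hx0, hfl]
        have : (n : ℚ) + t - n = t := by ring
        rw [this]
        have : t * (a (n + 1) - a n) = y - a n := div_mul_cancel₀ _ hp.ne'
        rw [this]
        ring
  refine ⟨hmono.orderIsoOfSurjective g hsurj, fun n => ?_⟩
  have h1 : (hmono.orderIsoOfSurjective g hsurj) (n : ℚ) = g n := rfl
  rw [h1]
  have h2 := hg_lower n (Nat.cast_nonneg n)
  rw [Nat.floor_natCast] at h2
  have h3 : (F n : ℚ) < a n := by exact_mod_cast haF n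
  linarith

/-- The group of all order automorphisms of `ℚ` has infinite commutative submonoid width: it is
not a product of finitely many commutative submonoids (in particular, of abelian subgroups). -/
theorem result : cmw (ℚ ≃o ℚ) = ⊤ := by
  classical
  unfold cmw
  refine iInf₂_eq_top.2 ?_
  rintro k ⟨C, hC, hprod⟩
  exfalso
  obtain ⟨F, -, hF⟩ := dominated_prod k (fun i => (fun g : ℚ ≃o ℚ => (g : ℚ → ℚ)) '' (C i))
    (by
      rintro i _ ⟨g, -, rfl⟩
      exact g.monotone)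
    (by
      rintro i _ ⟨a, ha, rfl⟩ _ ⟨b, hb, rfl⟩ x
      have := hC i a ha b hb
      have := DFunLike.congr_fun this x
      exact this)
  obtain ⟨g, hg⟩ := exists_fast F
  obtain ⟨c, hc, hcg⟩ := hprod g
  obtain ⟨N, hN⟩ := hF (fun i => c i) (fun i => ⟨c i, hc i, rfl⟩)
  have h1 := hN N le_rfl
  have h2 : ∀ (l : List (ℚ ≃o ℚ)) (x : ℚ),
      l.prod x = (l.map (fun g : ℚ ≃o ℚ => (g : ℚ → ℚ))).foldr (fun g x => g x) x := by
    intro l x
    induction l with
    | nil => rfl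
    | cons a l ih =>
      rw [List.prod_cons, List.map_cons, List.foldr_cons, ← ih]
      rfl
  have h3 : (List.ofFn fun i => (c i : ℚ → ℚ)) =
      (List.ofFn c).map (fun g : ℚ ≃o ℚ => (g : ℚ → ℚ)) := by
    rw [List.map_ofFn]
    rfl
  rw [h3, ← h2, hcg] at h1
  have h4 := hg N
  linarith

end Pool.Agent.Results.MP_697e97_al.AutRat
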