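import Mathlib

set_option autoImplicit false

namespace Pool.Agent.Results.MP_697e97_al.EndRandomGraph

/-- `M` is the product `C 0 * C 1 * ... * C (n-1)` of `n` commutative submonoids. -/
def IsProductOfCommSubmonoids (M : Type*) [Monoid M] (n : ℕ) : Prop :=
  ∃ C : Fin n → Submonoid M,
    (∀ i, ∀ a ∈ C i, ∀ b ∈ C i, a * b = b * a) ∧
    ∀ m : M, ∃ c : Fin n → M, (∀ i, c i ∈ C i) ∧ (List.ofFn c).prod = m

/-- The commutative submonoid width: the least `n` such that `M` is a product of `n`
commutative submonoids, and `⊤` if there is no such `n`. -/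
noncomputable def cmw (M : Type*) [Monoid M] : ℕ∞ :=
  ⨅ (n : ℕ) (_ : IsProductOfCommSubmonoids M n), (n : ℕ∞)

/-- `G` is (a copy of) the countable random (Rado) graph: the vertex set is countable and for
all disjoint finite sets `U`, `W` of vertices some vertex outside `U ∪ W` is adjacent to every
vertex of `U` and to no vertex of `W`. -/
def IsRandomGraph {V : Type*} (G : SimpleGraph V) : Prop :=
  Countable V ∧ ∀ U W : Finset V, Disjoint U W →
    ∃ z : V, z ∉ U ∧ z ∉ W ∧ (∀ u ∈ U, G.Adj z u) ∧ (∀ w ∈ W, ¬ G.Adj z w)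

theorem exists_rec {α β : Type*} {r : α → α → Prop} (wf : WellFounded r)
    (C : (a : α) → ((b : α) → r b a → β) → β → Prop)
    (h : ∀ a prev, ∃ z, C a prev z) :
    ∃ f : α → β, ∀ a, C a (fun b _ => f b) (f a) := by
  classical
  choose F hF using h
  refine ⟨wf.fix F, fun a => ?_⟩
  have := hF a (fun b _ => wf.fix F b)
  rw [WellFounded.fix_eq]
  exact this

/-- Sparse embedding of a graph on `ℕ`. -/
theorem sparse_nat {V : Type*} {G : SimpleGraph V}
    (hext : ∀ U W : Finset V, Disjoint U W →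
      ∃ z : V, z ∉ U ∧ z ∉ W ∧ (∀ u ∈ U, G.Adj z u) ∧ (∀ w ∈ W, ¬ G.Adj z w))
    (e : ℕ → V) (he : Function.Surjective e) (H : SimpleGraph ℕ) :
    ∃ φ : ℕ → V, Function.Injective φ ∧ (∀ a b, G.Adj (φ a) (φ b) ↔ H.Adj a b) ∧
      ∀ v, v ∉ Set.range φ → {a | G.Adj v (φ a)}.Finite := by
  classical
  obtain ⟨φ, hφ⟩ := exists_rec (α := ℕ) (β := V) (r := fun a b => a < b) Nat.lt_wfRel.wf
    (fun n prev z =>
      (∀ k (hk : k < n), z ≠ prev k hk) ∧
      (∀ k (hk : k < n), H.Adj n k → G.Adj z (prev k hk)) ∧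
      (∀ v, ((∃ k, ∃ hk : k < n, prev k hk = v) ∨ (∃ k, k < n ∧ e k = v)) →
        (¬ ∃ k, ∃ hk : k < n, H.Adj n k ∧ prev k hk = v) → ¬ G.Adj z v))
    (by
      intro n prev
      let U : Finset V := ((Finset.univ : Finset (Fin n)).filter
        (fun k => H.Adj n k.1)).image (fun k => prev k.1 k.2)
      let W : Finset V := ((Finset.univ : Finset (Fin n)).image (fun k => prev k.1 k.2) ∪
        (Finset.univ : Finset (Fin n)).image (fun k => e k.1)) \ U
      obtain ⟨z, hzU, hzW, hU, hW⟩ := hext U W (Finset.disjoint_sdiff)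
      have hmemU : ∀ v, v ∈ U ↔ ∃ k, ∃ hk : k < n, H.Adj n k ∧ prev k hk = v := by
        intro v
        simp only [U, Finset.mem_image, Finset.mem_filter, Finset.mem_univ, true_and]
        constructor
        · rintro ⟨k, h1, h2⟩
          exact ⟨k.1, k.2, h1, h2⟩
        · rintro ⟨k, hk, h1, h2⟩
          exact ⟨⟨k, hk⟩, h1, h2⟩
      have hmemW : ∀ v, ((∃ k, ∃ hk : k < n, prev k hk = v) ∨ (∃ k, k < n ∧ e k = v)) →
          (¬ ∃ k, ∃ hk : k < n, H.Adj n k ∧ prev k hk = v) → v ∈ W := by
        intro v h1 h2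
        rw [← hmemU] at h2
        simp only [W, Finset.mem_sdiff, Finset.mem_union, Finset.mem_image, Finset.mem_univ,
          true_and]
        refine ⟨?_, h2⟩
        rcases h1 with ⟨k, hk, h⟩ | ⟨k, hk, h⟩
        · exact Or.inl ⟨⟨k, hk⟩, h⟩
        · exact Or.inr ⟨⟨k, hk⟩, h⟩
      refine ⟨z, ?_, ?_, ?_⟩
      · intro k hk hz
        by_cases hk' : prev k hk ∈ U
        · exact hzU (hz ▸ hk')
        · refine hzW (hz ▸ hmemW _ (Or.inl ⟨k, hk, rfl⟩) ?_)
          rwa [← hmemU]
      · intro k hk hadj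
        exact hU _ ((hmemU _).2 ⟨k, hk, hadj, rfl⟩)
      · intro v h1 h2
        exact hW _ (hmemW v h1 h2))
  have hne : ∀ a b, a < b → φ b ≠ φ a := fun a b hab => (hφ b).1 a hab
  have hinj : Function.Injective φ := by
    intro a b hab
    rcases lt_trichotomy a b with h | h | h
    · exact absurd hab.symm (hne a b h)
    · exact h
    · exact absurd hab (hne b a h)
  have hadj : ∀ a b, a < b → (G.Adj (φ b) (φ a) ↔ H.Adj b a) := by
    intro a b hab
    constructor
    · intro h
      by_contra hH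
      refine (hφ b).2.2 (φ a) (Or.inl ⟨a, hab, rfl⟩) ?_ h
      rintro ⟨k, hk, hk1, hk2⟩
      exact hH (hinj hk2 ▸ hk1)
    · intro h
      exact (hφ b).2.1 a hab h
  refine ⟨φ, hinj, ?_, ?_⟩
  · intro a b
    rcases lt_trichotomy a b with h | h | h
    · rw [G.adj_comm, H.adj_comm]
      exact hadj a b h
    · subst h
      simp
    · exact hadj b a h
  · intro v hv
    obtain ⟨m, rfl⟩ := he v
    refine Set.Finite.subset (Set.finite_Iic m) ?_
    intro n hn
    by_contra hlt
    simp only [Set.mem_Iic, not_le] at hlt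
    refine (hφ n).2.2 (e m) (Or.inr ⟨m, hlt, rfl⟩) ?_ ((G.adj_comm _ _).1 hn)
    rintro ⟨k, hk, -, h⟩
    exact hv ⟨k, h⟩

/-- Sparse embedding of a countable graph. -/
theorem sparse {V : Type*} {G : SimpleGraph V}
    (hext : ∀ U W : Finset V, Disjoint U W →
      ∃ z : V, z ∉ U ∧ z ∉ W ∧ (∀ u ∈ U, G.Adj z u) ∧ (∀ w ∈ W, ¬ G.Adj z w))
    (e : ℕ → V) (he : Function.Surjective e) {W : Type*} [Countable W] (H : SimpleGraph W) :
    ∃ φ : W → V, Function.Injective φ ∧ (∀ a b, G.Adj (φ a) (φ b) ↔ H.Adj a b) ∧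
      ∀ v, v ∉ Set.range φ → {a | G.Adj v (φ a)}.Finite := by
  obtain ⟨enc, henc⟩ := exists_injective_nat W
  let E : W ↪ ℕ := ⟨enc, henc⟩
  obtain ⟨φ, h1, h2, h3⟩ := sparse_nat hext e he (H.map E)
  refine ⟨φ ∘ E, h1.comp henc, ?_, ?_⟩
  · intro a b
    simp only [Function.comp_apply]
    rw [h2]
    exact SimpleGraph.map_adj_apply (f := E)
  · intro v hv
    by_cases hv' : v ∈ Set.range φ
    · obtain ⟨n, rfl⟩ := hv'
      refine Set.Finite.subset Set.finite_empty ?_
      intro a ha
      have ha' : G.Adj (φ n) (φ (E a)) := ha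
      rw [h2, SimpleGraph.map_adj] at ha'
      obtain ⟨u, w, -, hu, -⟩ := ha'
      exact absurd ⟨u, by simp only [Function.comp_apply]; exact congrArg φ hu⟩ hv
    · exact (h3 v hv').preimage (f := enc) henc.injOn

/-- Extension of homomorphisms from a sparsely embedded graph. -/
theorem extend {V V' W : Type*} [Countable V] {G : SimpleGraph V} {G' : SimpleGraph V'}
    {H : SimpleGraph W} (hcone : ∀ s : Set V', s.Finite → ∃ z, ∀ u ∈ s, G'.Adj z u)
    (φ : W → V) (hφi : Function.Injective φ) (hφ : ∀ a b, G.Adj (φ a) (φ b) ↔ H.Adj a b)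
    (hfin : ∀ v, v ∉ Set.range φ → {a | G.Adj v (φ a)}.Finite)
    (h : W → V') (hh : ∀ a b, H.Adj a b → G'.Adj (h a) (h b)) :
    ∃ f : G →g G', ∀ w, f (φ w) = h w := by
  classical
  obtain ⟨enc, henc⟩ := exists_injective_nat V
  obtain ⟨f, hf⟩ := exists_rec (α := V) (β := V') (r := fun a b => enc a < enc b)
    (InvImage.wf enc Nat.lt_wfRel.wf)
    (fun v prev z => (∀ w, φ w = v → z = h w) ∧
      (v ∉ Set.range φ → (∀ w, G.Adj v (φ w) → G'.Adj z (h w)) ∧
        ∀ u (hu : enc u < enc v), G'.Adj z (prev u hu)))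
    (by
      intro v prev
      by_cases hv : v ∈ Set.range φ
      · obtain ⟨w, rfl⟩ := hv
        refine ⟨h w, ?_, ?_⟩
        · intro w' hw'
          rw [hφi hw']
        · intro hv
          exact absurd ⟨w, rfl⟩ hv
      · have hfin1 : (h '' {a | G.Adj v (φ a)}).Finite := (hfin v hv).image h
        have hfin2 : (Set.range (fun u : {u : V // enc u < enc v} => prev u.1 u.2)).Finite := by
          have : Finite {u : V // enc u < enc v} := by
            refine Set.Finite.subset (Set.Finite.preimage henc.injOn (Set.finite_Iio (enc v))) ?_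
            intro u hu
            exact hu
          exact Set.finite_range _
        obtain ⟨z, hz⟩ := hcone _ (hfin1.union hfin2)
        refine ⟨z, ?_, ?_⟩
        · intro w hw
          exact absurd ⟨w, hw⟩ hv
        · intro _
          refine ⟨?_, ?_⟩
          · intro w hw
            exact hz _ (Or.inl ⟨w, hw, rfl⟩)
          · intro u hu
            exact hz _ (Or.inr ⟨⟨u, hu⟩, rfl⟩))
  have hfφ : ∀ w, f (φ w) = h w := fun w => (hf (φ w)).1 w rfl
  have key : ∀ a b, enc a < enc b → G.Adj b a → G'.Adj (f b) (f a) := by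
    intro a b hab hadj
    by_cases hb : b ∈ Set.range φ
    · obtain ⟨w, rfl⟩ := hb
      by_cases ha : a ∈ Set.range φ
      · obtain ⟨w', rfl⟩ := ha
        rw [hfφ, hfφ]
        exact hh _ _ ((hφ _ _).1 hadj)
      · rw [hfφ]
        exact (((hf a).2 ha).1 w hadj.symm).symm
    · exact ((hf b).2 hb).2 a hab
  refine ⟨⟨f, ?_⟩, hfφ⟩
  intro a b hadj
  rcases lt_trichotomy (enc a) (enc b) with h' | h' | h'
  · exact (key a b h' hadj.symm).symm
  · exact absurd (henc h') hadj.ne
  · exact key b a h' hadj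

/-- The auxiliary graph: a disjoint union of `G` and the categorical product of the complete
graph on `ℕ` with `G`. -/
def auxGraph {V : Type*} (G : SimpleGraph V) : SimpleGraph (V ⊕ (ℕ × V)) where
  Adj x y := match x, y with
    | Sum.inl a, Sum.inl b => G.Adj a b
    | Sum.inr a, Sum.inr b => a.1 ≠ b.1 ∧ G.Adj a.2 b.2
    | _, _ => False
  symm := by
    constructor
    rintro (a | a) (b | b) h
    · exact G.symm.symm _ _ h
    · exact h
    · exact h
    · exact ⟨h.1.symm, h.2.symm⟩
  loopless := by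
    constructor
    rintro (a | a) h
    · exact G.loopless.irrefl _ h
    · exact h.1 rfl

/-- The endomorphism monoid of the random graph is a product of three commutative
submonoids; in particular it has finite commutative submonoid width, at most `3`. -/
theorem result {V : Type*} (G : SimpleGraph V) (hG : IsRandomGraph G) :
    cmw (G →g G) ≤ 3 := by
  classical
  obtain ⟨hcount, hext⟩ := hG
  have hne : Nonempty V := by
    obtain ⟨z, -⟩ := hext ∅ ∅ (by simp)
    exact ⟨z⟩
  obtain ⟨e, he⟩ := exists_surjective_nat V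
  obtain ⟨φ, hφi, hφ, hfin⟩ := sparse hext e he (auxGraph G)
  have hconeG : ∀ s : Set V, s.Finite → ∃ z, ∀ u ∈ s, G.Adj z u := by
    intro s hs
    obtain ⟨z, -, -, hz, -⟩ := hext hs.toFinset ∅ (by simp)
    exact ⟨z, fun u hu => hz u (by simpa using hu)⟩
  have hconeK : ∀ s : Set ℕ, s.Finite → ∃ z, ∀ u ∈ s, (⊤ : SimpleGraph ℕ).Adj z u := by
    intro s hs
    obtain ⟨z, hz⟩ := hs.exists_notMem
    refine ⟨z, fun u hu => ?_⟩
    rw [SimpleGraph.top_adj]
    rintro rfl
    exact hz hu
  obtain ⟨enc, henc⟩ := exists_injective_nat V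
  -- an infinite clique
  obtain ⟨s, hs⟩ : ∃ s : ℕ → V, ∀ n m, n ≠ m → G.Adj (s n) (s m) := by
    obtain ⟨s, -, hs, -⟩ := sparse_nat hext e he (⊤ : SimpleGraph ℕ)
    exact ⟨s, fun n m hnm => (hs n m).2 (by simpa using hnm)⟩
  -- the colouring
  obtain ⟨ζ, hζ⟩ := extend (G := G) (G' := (⊤ : SimpleGraph ℕ)) hconeK φ hφi hφ hfin
    (fun w => match w with
      | Sum.inl v => enc v
      | Sum.inr p => p.1)
    (by
      rintro (a | a) (b | b) h
      · simp only [SimpleGraph.top_adj]
        intro h'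
        have : a = b := henc h'
        subst this
        exact G.loopless.irrefl _ h
      · exact absurd h id
      · exact absurd h id
      · simp only [SimpleGraph.top_adj]
        exact h.1)
  -- the projection
  obtain ⟨j, hj⟩ := extend (G := G) (G' := G) hconeG φ hφi hφ hfin
    (fun w => match w with
      | Sum.inl v => v
      | Sum.inr p => p.2)
    (by
      rintro (a | a) (b | b) h
      · exact h
      · exact absurd h id
      · exact absurd h id
      · exact h.2)
  -- the embedding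
  let i : G →g G := ⟨fun v => φ (Sum.inl v), fun {a b} h => (hφ _ _).2 h⟩
  -- pairs
  have hadjA : ∀ n r m r', n ≠ m → G.Adj r r' →
      G.Adj (φ (Sum.inr (n, r))) (φ (Sum.inr (m, r'))) := by
    intro n r m r' h1 h2
    exact (hφ _ _).2 ⟨h1, h2⟩
  have hζne : ∀ v w, G.Adj v w → ζ v ≠ ζ w := by
    intro v w h
    have := ζ.map_rel h
    rwa [SimpleGraph.top_adj] at this
  have hζA : ∀ n r, ζ (φ (Sum.inr (n, r))) = n := fun n r => hζ (Sum.inr (n, r))
  let θ : G →g G := ⟨fun v => φ (Sum.inr (ζ v, s (ζ v))), fun {a b} h =>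
    hadjA _ _ _ _ (hζne _ _ h) (hs _ _ (hζne _ _ h))⟩
  let P : (G →g G) → Prop := fun c => (∀ v, ∃ r, c v = φ (Sum.inr (ζ v, r))) ∧
    (∀ n r, c (φ (Sum.inr (n, r))) = φ (Sum.inr (n, s n)))
  have hPmul : ∀ c c', P c → P c' → c * c' = θ := by
    intro c c' hc hc'
    ext v
    obtain ⟨r, hr⟩ := hc'.1 v
    change c (c' v) = φ (Sum.inr (ζ v, s (ζ v)))
    rw [hr, hc.2]
  have hθP : P θ := by
    refine ⟨fun v => ⟨_, rfl⟩, fun n r => ?_⟩
    change φ (Sum.inr (ζ (φ (Sum.inr (n, r))), s (ζ (φ (Sum.inr (n, r)))))) = _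
    rw [hζA]
  let C : Submonoid (G →g G) :=
    { carrier := {c | c = 1 ∨ P c}
      one_mem' := Or.inl rfl
      mul_mem' := by
        rintro a b (rfl | ha) (rfl | hb)
        · left; simp
        · right; simpa using hb
        · right; simpa using ha
        · right
          rw [hPmul a b ha hb]
          exact hθP }
  have hCcomm : ∀ a ∈ C, ∀ b ∈ C, a * b = b * a := by
    rintro a (rfl | ha) b (rfl | hb)
    · rfl
    · simp
    · simp
    · rw [hPmul a b ha hb, hPmul b a hb ha]
  have hprod : IsProductOfCommSubmonoids (G →g G) 3 := by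
    refine ⟨![Submonoid.powers j, C, Submonoid.powers i], ?_, ?_⟩
    · intro k
      fin_cases k
      · rintro a ⟨n, rfl⟩ b ⟨m, rfl⟩
        exact ((Commute.refl j).pow_pow n m).eq
      · exact hCcomm
      · rintro a ⟨n, rfl⟩ b ⟨m, rfl⟩
        exact ((Commute.refl i).pow_pow n m).eq
    · intro f
      obtain ⟨κ, hκ⟩ := extend (G := G) (G' := G) hconeG φ hφi hφ hfin
        (fun w => match w with
          | Sum.inl v => f v
          | Sum.inr p => s p.1)
        (by
          rintro (a | a) (b | b) h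
          · exact f.map_rel h
          · exact absurd h id
          · exact absurd h id
          · exact hs _ _ h.1)
      let c : G →g G := ⟨fun v => φ (Sum.inr (ζ v, κ v)), fun {a b} h =>
        hadjA _ _ _ _ (hζne _ _ h) (κ.map_rel h)⟩
      have hc : P c := by
        refine ⟨fun v => ⟨_, rfl⟩, fun n r => ?_⟩
        change φ (Sum.inr (ζ (φ (Sum.inr (n, r))), κ (φ (Sum.inr (n, r))))) = _
        rw [hζA, hκ]
      refine ⟨![j, c, i], ?_, ?_⟩
      · intro k
        fin_cases k
        · exact Submonoid.mem_powers j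
        · exact Or.inr hc
        · exact Submonoid.mem_powers i
      · have : (List.ofFn ![j, c, i]).prod = j * (c * i) := by
          simp [List.ofFn_succ]
        rw [this]
        ext v
        change j (φ (Sum.inr (ζ (φ (Sum.inl v)), κ (φ (Sum.inl v))))) = f v
        rw [hj, hκ]
  exact iInf₂_le_of_le 3 hprod le_rfl

end Pool.Agent.Results.MP_697e97_al.EndRandomGraph
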