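import Mathlib

set_option autoImplicit false

namespace Pool.Agent.Results.MP_697e97_al.EndRat

/-- `M` is the product `C 0 * C 1 * ... * C (n-1)` of `n` commutative submonoids. -/
def IsProductOfCommSubmonoids (M : Type*) [Monoid M] (n : ℕ) : Prop :=
  ∃ C : Fin n → Submonoid M,
    (∀ i, ∀ a ∈ C i, ∀ b ∈ C i, a * b = b * a) ∧
    ∀ m : M, ∃ c : Fin n → M, (∀ i, c i ∈ C i) ∧ (List.ofFn c).prod = m

/-- The commutative submonoid width: the least `n` such that `M` is a product of `n`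
commutative submonoids, and `⊤` if there is no such `n`. -/
noncomputable def cmw (M : Type*) [Monoid M] : ℕ∞ :=
  ⨅ (n : ℕ) (_ : IsProductOfCommSubmonoids M n), (n : ℕ∞)

/-- Pairwise commuting order preserving self-maps of `ℚ` are dominated on the naturals by one
function, which may be taken above the identity. -/
theorem dominated (S : Set (ℚ → ℚ)) (hmono : ∀ c ∈ S, Monotone c)
    (hcomm : ∀ a ∈ S, ∀ b ∈ S, ∀ x, a (b x) = b (a x)) :
    ∃ f : ℕ → ℕ, (∀ n, n ≤ f n) ∧ ∀ c ∈ S, ∃ N : ℕ, ∀ n : ℕ, N ≤ n → c n ≤ f n := by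
  classical
  obtain ⟨q, hq⟩ := exists_surjective_nat ℚ
  suffices h : ∃ f : ℕ → ℚ, ∀ c ∈ S, ∃ N : ℕ, ∀ n : ℕ, N ≤ n → c n ≤ f n by
    obtain ⟨f, hf⟩ := h
    refine ⟨fun n => n + ⌈f n⌉₊, fun n => Nat.le_add_right _ _, ?_⟩
    intro c hc
    obtain ⟨N, hN⟩ := hf c hc
    refine ⟨N, fun n hn => (hN n hn).trans ?_⟩
    push_cast
    have h1 := Nat.le_ceil (f n)
    have h2 : (0 : ℚ) ≤ n := Nat.cast_nonneg n
    linarith
  by_cases hb : ∃ x, ∀ n : ℕ, ∃ c ∈ S, (n : ℚ) ≤ c x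
  · obtain ⟨x, hx⟩ := hb
    choose c hcS hc using hx
    refine ⟨fun n => (Finset.range (n + 1)).sup' ⟨0, by simp⟩ (fun j => c n (q j)), ?_⟩
    intro b hb
    obtain ⟨j, hj⟩ := hq (b x)
    refine ⟨j, fun n hn => ?_⟩
    have h1 : b n ≤ b (c n x) := hmono b hb (hc n)
    rw [hcomm b hb (c n) (hcS n), ← hj] at h1
    refine h1.trans ?_
    exact Finset.le_sup' (f := fun j => c n (q j)) (by simp; omega)
  · push Not at hb
    choose B hB using hb
    refine ⟨fun n => B n, fun c hc => ⟨0, fun n _ => (hB n c hc).le⟩⟩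

/-- Every finite product of such families is dominated. -/
theorem dominated_prod (k : ℕ) (S : Fin k → Set (ℚ → ℚ)) (hmono : ∀ i, ∀ c ∈ S i, Monotone c)
    (hcomm : ∀ i, ∀ a ∈ S i, ∀ b ∈ S i, ∀ x, a (b x) = b (a x)) :
    ∃ f : ℕ → ℕ, (∀ n, n ≤ f n) ∧ ∀ c : Fin k → ℚ → ℚ, (∀ i, c i ∈ S i) →
      ∃ N : ℕ, ∀ n : ℕ, N ≤ n → ((List.ofFn c).foldr (fun g x => g x) (n : ℚ)) ≤ f n := by
  induction k with
  | zero =>
    refine ⟨fun n => n, fun n => le_rfl, fun c _ => ⟨0, fun n _ => ?_⟩⟩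
    simp
  | succ k ih =>
    obtain ⟨f, hf, hfc⟩ := ih (fun i => S i.succ) (fun i => hmono i.succ) (fun i => hcomm i.succ)
    obtain ⟨g, hg, hgc⟩ := dominated (S 0) (hmono 0) (hcomm 0)
    refine ⟨fun n => g (f n), fun n => (hf n).trans (hg _), ?_⟩
    intro c hc
    obtain ⟨N, hN⟩ := hfc (fun i => c i.succ) (fun i => hc i.succ)
    obtain ⟨N', hN'⟩ := hgc (c 0) (hc 0)
    refine ⟨max N N', fun n hn => ?_⟩
    have h1 := hN n ((le_max_left _ _).trans hn)
    have h2 := hN' (f n) (((le_max_right _ _).trans hn).trans (hf n))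
    rw [List.ofFn_succ, List.foldr_cons]
    exact (hmono 0 _ (hc 0) h1).trans h2

/-- The monoid of all order preserving self-maps of `ℚ` has infinite commutative submonoid
width: it is not a product of finitely many commutative submonoids. -/
theorem result : cmw (ℚ →o ℚ) = ⊤ := by
  classical
  unfold cmw
  refine iInf₂_eq_top.2 ?_
  rintro k ⟨C, hC, hprod⟩
  exfalso
  obtain ⟨F, -, hF⟩ := dominated_prod k (fun i => (fun g : ℚ →o ℚ => (g : ℚ → ℚ)) '' (C i))
    (by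
      rintro i _ ⟨g, -, rfl⟩
      exact g.monotone)
    (by
      rintro i _ ⟨a, ha, rfl⟩ _ ⟨b, hb, rfl⟩ x
      have := hC i a ha b hb
      have := DFunLike.congr_fun this x
      exact this)
  -- a fast growing step function
  let g : ℚ →o ℚ :=
    ⟨fun x => (((Finset.range (⌈x⌉₊ + 1)).sup (fun n => F n + 1) : ℕ) : ℚ), by
      intro x y hxy
      refine Nat.cast_le.2 (Finset.sup_mono ?_)
      intro n hn
      have := Nat.ceil_mono hxy
      simp only [Finset.mem_range] at hn ⊢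
      omega⟩
  obtain ⟨c, hc, hcg⟩ := hprod g
  obtain ⟨N, hN⟩ := hF (fun i => c i) (fun i => ⟨c i, hc i, rfl⟩)
  have h1 := hN N le_rfl
  have h2 : ∀ (l : List (ℚ →o ℚ)) (x : ℚ),
      l.prod x = (l.map (fun g : ℚ →o ℚ => (g : ℚ → ℚ))).foldr (fun g x => g x) x := by
    intro l x
    induction l with
    | nil => rfl
    | cons a l ih =>
      rw [List.prod_cons, List.map_cons, List.foldr_cons, ← ih]
      rfl
  have h3 : (List.ofFn fun i => (c i : ℚ → ℚ)) =
      (List.ofFn c).map (fun g : ℚ →o ℚ => (g : ℚ → ℚ)) := by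
    rw [List.map_ofFn]
    rfl
  rw [h3, ← h2, hcg] at h1
  have h4 : ((F N : ℕ) : ℚ) + 1 ≤ g (N : ℚ) := by
    change _ ≤ (((Finset.range (⌈(N : ℚ)⌉₊ + 1)).sup (fun n => F n + 1) : ℕ) : ℚ)
    rw [Nat.ceil_natCast]
    have : F N + 1 ≤ (Finset.range (N + 1)).sup (fun n => F n + 1) :=
      Finset.le_sup (f := fun n => F n + 1) (by simp)
    exact_mod_cast this
  linarith

end Pool.Agent.Results.MP_697e97_al.EndRat
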